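import Pool.Agent.N676.BR.Sol

/-!
# MP_247194_an: the structure of the basin of `√2` for the pairs `(k, l)` whose basin is not everything
(helper676)

For which pairs the basin is everything is in `GlobalAttractivity` (helper420, helper551).
-/

set_option autoImplicit false

namespace Pool.Agent.Results.MP_247194_an.BasinStructure

open Filter Topology Pool.Agent.N676.BR

/-- The solution of `x_{n+1} = 1 / x_{n-k} + 1 / x_{n-l}` with the initial condition
`v = (x_{-m}, ..., x_0)`, `m = max k l`. The index is shifted by `m`: `sol k l v j` is `x_{j-m}`. -/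
noncomputable def sol (k l : ℕ) (v : Fin (max k l + 1) → ℝ) : ℕ → ℝ
  | n =>
    if h : n < max k l + 1 then v ⟨n, h⟩
    else 1 / sol k l v (n - (k + 1)) + 1 / sol k l v (n - (l + 1))
  termination_by n => n
  decreasing_by all_goals omega

/-- The set `B_{k,l}` of all positive initial conditions whose solution converges to `√2`. -/
def basin (k l : ℕ) : Set (Fin (max k l + 1) → ℝ) :=
  {v | (∀ i, 0 < v i) ∧ Tendsto (sol k l v) atTop (𝓝 √2)}

/-- The action of `(0, ∞)^g` on initial conditions: the entries with index `j ≡ r mod g` (counted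
from `0`) are multiplied by `c r` or by `1 / c r` according as `⌊j / g⌋` is even or odd. -/
noncomputable def scale {N : ℕ} (g : ℕ) [NeZero g] (c : Fin g → ℝ) (v : Fin N → ℝ) : Fin N → ℝ :=
  fun j => if Even ((j : ℕ) / g) then c (Fin.ofNat g j) * v j else (c (Fin.ofNat g j))⁻¹ * v j

theorem sol_lt {k l : ℕ} {v : Fin (max k l + 1) → ℝ} {n : ℕ} (h : n < max k l + 1) :
    sol k l v n = v ⟨n, h⟩ := by
  rw [sol, dif_pos h]

theorem sol_ge {k l : ℕ} {v : Fin (max k l + 1) → ℝ} {n : ℕ} (h : ¬ n < max k l + 1) :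
    sol k l v n = 1 / sol k l v (n - (k + 1)) + 1 / sol k l v (n - (l + 1)) := by
  rw [sol, dif_neg h]

theorem sol_pos {k l : ℕ} {v : Fin (max k l + 1) → ℝ} (hv : ∀ i, 0 < v i) (n : ℕ) :
    0 < sol k l v n := by
  induction n using Nat.strong_induction_on with
  | _ n ih =>
    by_cases h : n < max k l + 1
    · rw [sol_lt h]; exact hv _
    · rw [sol_ge h]
      have h1 := ih (n - (k + 1)) (by omega)
      have h2 := ih (n - (l + 1)) (by omega)
      positivity

theorem isSol {k l : ℕ} {v : Fin (max k l + 1) → ℝ} (hv : ∀ i, 0 < v i) :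
    Sol (k + 1) (l + 1) (sol k l v) :=
  ⟨sol_pos hv, fun _ hn => sol_ge (by omega)⟩

theorem sol_unique {k l : ℕ} {v : Fin (max k l + 1) → ℝ} {x : ℕ → ℝ} (hx : Sol (k + 1) (l + 1) x)
    (hv : ∀ i : Fin (max k l + 1), x i = v i) : sol k l v = x := by
  funext n
  induction n using Nat.strong_induction_on with
  | _ n ih =>
    by_cases h : n < max k l + 1
    · rw [sol_lt h, ← hv]
    · rw [sol_ge h, hx.req n (by omega), ih _ (by omega), ih _ (by omega)]

theorem gcdNeZero (k l : ℕ) : NeZero ((k + 1).gcd (l + 1)) :=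
  ⟨(Nat.gcd_pos_of_pos_left _ (Nat.succ_pos k)).ne'⟩

theorem shift {g p n : ℕ} (hg : 0 < g) (hp : Odd p) (hn : g * p ≤ n) :
    (n - g * p) % g = n % g ∧ (Even ((n - g * p) / g) ↔ ¬ Even (n / g)) := by
  have h1 : p ≤ n / g := by
    rw [Nat.le_div_iff_mul_le hg]
    linarith [Nat.mul_comm g p]
  constructor
  · exact Nat.sub_mul_mod hn
  · have : (n - g * p) / g = n / g - p := Nat.sub_mul_div n g p
    rw [this, Nat.even_sub h1]
    have := Nat.not_even_iff_odd.2 hp
    tauto

/-- The action on solutions. -/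
theorem scaleSol {a b g p q : ℕ} (hg : 0 < g) (ha : a = g * p) (hb : b = g * q) (hp : Odd p)
    (hq : Odd q) {x : ℕ → ℝ} (hx : Sol a b x) {c : ℕ → ℝ} (hc : ∀ r, 0 < c r) :
    Sol a b (fun n => if Even (n / g) then c (n % g) * x n else (c (n % g))⁻¹ * x n) := by
  refine ⟨fun n => ?_, fun n hn => ?_⟩
  · have h1 := hx.pos n
    have h2 := hc (n % g)
    show 0 < ite _ _ _
    split_ifs <;> positivity
  · obtain ⟨s1, s2⟩ := shift hg hp (n := n) (ha ▸ (le_max_left _ _).trans hn)
    obtain ⟨s3, s4⟩ := shift hg hq (n := n) (hb ▸ (le_max_right _ _).trans hn)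
    have e := hx.req n hn
    have x1 := hx.pos (n - a)
    have x2 := hx.pos (n - b)
    have h2 := hc (n % g)
    rw [ha] at x1
    rw [hb] at x2
    rw [ha, hb] at e ⊢
    show ite _ _ _ = 1 / ite _ _ _ + 1 / ite _ _ _
    rw [s1, s3]
    by_cases hev : Even (n / g)
    · have n1 : ¬ Even ((n - g * p) / g) := fun h => (s2.1 h) hev
      have n2 : ¬ Even ((n - g * q) / g) := fun h => (s4.1 h) hev
      rw [if_pos hev, if_neg n1, if_neg n2, e]
      field_simp
    · have n1 : Even ((n - g * p) / g) := s2.2 hev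
      have n2 : Even ((n - g * q) / g) := s4.2 hev
      rw [if_neg hev, if_pos n1, if_pos n2, e]
      field_simp

theorem tendsto_of_classes {g : ℕ} (hg : 0 < g) {x : ℕ → ℝ} {c : ℝ}
    (h : ∀ r < g, Tendsto (fun t => x (r + g * t)) atTop (𝓝 c)) : Tendsto x atTop (𝓝 c) := by
  rw [Metric.tendsto_atTop]
  intro ε hε
  have h1 : ∀ r, ∃ N, r < g → ∀ t ≥ N, dist (x (r + g * t)) c < ε := by
    intro r
    by_cases hr : r < g
    · obtain ⟨N, hN⟩ := Metric.tendsto_atTop.1 (h r hr) ε hε
      exact ⟨N, fun _ => hN⟩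
    · exact ⟨0, fun h => absurd h hr⟩
  choose N hN using h1
  refine ⟨g * ((Finset.range g).sup N + 1), fun n hn => ?_⟩
  have e : n = n % g + g * (n / g) := (Nat.mod_add_div n g).symm
  rw [e]
  have hr : n % g < g := Nat.mod_lt _ hg
  refine hN _ hr _ ?_
  have h2 : N (n % g) ≤ (Finset.range g).sup N := Finset.le_sup (Finset.mem_range.2 hr)
  have h3 : (Finset.range g).sup N + 1 ≤ n / g := by
    rw [Nat.le_div_iff_mul_le hg, mul_comm]
    exact hn
  omega

theorem class_eq {g r t : ℕ} {x : ℕ → ℝ} :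
    x (r + g * t) = if Even t then zz g x r t else 2 / zz g x r t := by
  unfold zz
  split_ifs with h
  · rfl
  · rw [div_div_cancel₀ two_ne_zero]

theorem subseq {g r : ℕ} (hg : 0 < g) : Tendsto (fun t : ℕ => r + g * t) atTop atTop :=
  tendsto_atTop_mono (fun t => (Nat.le_mul_of_pos_left t hg).trans (Nat.le_add_left _ _))
    tendsto_id

theorem sqrt_two_div : (2 : ℝ) / √2 = √2 := by
  rw [div_eq_iff (by positivity)]
  exact (Real.mul_self_sqrt (by norm_num)).symm

/-- Convergence to `√2` in terms of the limits of the classes. -/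
theorem tendsto_iff {g : ℕ} (hg : 0 < g) {x φ : ℕ → ℝ}
    (hφ : ∀ r, Tendsto (zz g x r) atTop (𝓝 (φ r))) :
    Tendsto x atTop (𝓝 √2) ↔ ∀ r < g, φ r = √2 := by
  constructor
  · intro h r _
    have h1 : Tendsto (fun t => x (r + g * t)) atTop (𝓝 √2) := h.comp (subseq hg)
    have h2 : Tendsto (fun t => 2 / x (r + g * t)) atTop (𝓝 √2) := by
      have := (tendsto_const_nhds (x := (2 : ℝ))).div h1 (by positivity)
      rwa [sqrt_two_div] at this
    have h3 : Tendsto (zz g x r) atTop (𝓝 √2) := Tendsto.if' h1 h2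
    exact tendsto_nhds_unique (hφ r) h3
  · intro h
    refine tendsto_of_classes hg fun r hr => ?_
    have h1 := hφ r
    rw [h r hr] at h1
    have h2 : Tendsto (fun t => 2 / zz g x r t) atTop (𝓝 √2) := by
      have := (tendsto_const_nhds (x := (2 : ℝ))).div h1 (by positivity)
      rwa [sqrt_two_div] at this
    refine Tendsto.congr (fun t => class_eq.symm) ?_
    exact Tendsto.if' h1 h2

theorem zz_pos {g r t : ℕ} {x : ℕ → ℝ} (hx : ∀ n, 0 < x n) : 0 < zz g x r t := by
  have := hx (r + g * t)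
  unfold zz
  split_ifs <;> positivity

/-- The action on limits. -/
theorem zz_scale {g r t : ℕ} (hr : r < g) {x c : ℕ → ℝ} (hc : ∀ r, 0 < c r) :
    zz g (fun n => if Even (n / g) then c (n % g) * x n else (c (n % g))⁻¹ * x n) r t =
      c r * zz g x r t := by
  have hg : 0 < g := by omega
  have e1 : (r + g * t) / g = t := by
    rw [Nat.add_mul_div_left _ _ hg, Nat.div_eq_of_lt hr, zero_add]
  have e2 : (r + g * t) % g = r := by
    rw [Nat.add_mul_mod_self_left, Nat.mod_eq_of_lt hr]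
  have h2 := (hc r).ne'
  simp only [zz, e1, e2]
  by_cases hev : Even t
  · simp only [if_pos hev]
  · simp only [if_neg hev]
    rw [← div_div, div_inv_eq_mul]
    ring

theorem scale_mem {k l g : ℕ} [NeZero g] (hg : g = (k + 1).gcd (l + 1))
    (hpo : Odd ((k + 1) / g)) (hqo : Odd ((l + 1) / g)) {v : Fin (max k l + 1) → ℝ}
    (hv : ∀ i, 0 < v i) {φ : ℕ → ℝ} (hφ : ∀ r, Tendsto (zz g (sol k l v) r) atTop (𝓝 (φ r)))
    {c : Fin g → ℝ} (hc : ∀ r, 0 < c r) :
    scale g c v ∈ basin k l ↔ ∀ r : Fin g, c r * φ r = √2 := by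
  have hg0 : 0 < g := Nat.pos_of_ne_zero (NeZero.ne g)
  have hsc : ∀ i, 0 < scale g c v i := by
    intro i
    have h1 := hv i
    have h2 := hc (Fin.ofNat g i)
    unfold scale
    split_ifs <;> positivity
  have ea : k + 1 = g * ((k + 1) / g) := (Nat.mul_div_cancel' (hg ▸ Nat.gcd_dvd_left _ _)).symm
  have eb : l + 1 = g * ((l + 1) / g) := (Nat.mul_div_cancel' (hg ▸ Nat.gcd_dvd_right _ _)).symm
  have hc' : ∀ n : ℕ, 0 < (fun n : ℕ => c (Fin.ofNat g n)) n := fun n => hc _
  have hy := scaleSol hg0 ea eb hpo hqo (isSol hv) hc'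
  have hmod : ∀ n : ℕ, Fin.ofNat g (n % g) = Fin.ofNat g n := by
    intro n
    apply Fin.ext
    simp [Fin.ofNat]
  have hs : sol k l (scale g c v) = _ := sol_unique hy (fun i => by
    show ite _ _ _ = scale g c v i
    unfold scale
    rw [hmod, sol_lt i.2])
  have hz : ∀ r, Tendsto (zz g (sol k l (scale g c v)) r) atTop
      (𝓝 (if r < g then c (Fin.ofNat g r) * φ r else
        limUnder atTop (zz g (sol k l (scale g c v)) r))) := by
    intro r
    by_cases hr : r < g
    · rw [if_pos hr, hs]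
      refine Tendsto.congr (fun t => (zz_scale hr hc').symm) ?_
      exact (hφ r).const_mul _
    · rw [if_neg hr]
      obtain ⟨y, -, hy'⟩ := (isSol hsc).limits (Nat.succ_pos k) (Nat.succ_pos l)
        (hg ▸ hpo) (hg ▸ hqo) r
      rw [← hg] at hy'
      rwa [hy'.limUnder_eq]
  have hiff := tendsto_iff hg0 hz
  constructor
  · intro h r
    have h1 := hiff.1 h.2 r r.2
    rw [if_pos r.2] at h1
    have e : Fin.ofNat g (r : ℕ) = r := by
      apply Fin.ext
      simp [Fin.ofNat, Nat.mod_eq_of_lt r.2]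
    rwa [e] at h1
  · intro h
    refine ⟨hsc, hiff.2 fun r hr => ?_⟩
    rw [if_pos hr]
    have e : (Fin.ofNat g r : ℕ) = r := by
      simp [Fin.ofNat, Nat.mod_eq_of_lt hr]
    have := h (Fin.ofNat g r)
    rwa [e] at this

theorem equal_case {k l : ℕ} (hval : padicValNat 2 (k + 1) = padicValNat 2 (l + 1))
    (g : ℕ) [NeZero g] (hg : g = (k + 1).gcd (l + 1)) (v : Fin (max k l + 1) → ℝ)
    (hv : ∀ i, 0 < v i) :
    (∃ φ : Fin g → ℝ, (∀ r, 0 < φ r) ∧
      (∀ r : Fin g,
        Tendsto (fun s : ℕ => sol k l v (r + 2 * g * s)) atTop (𝓝 (φ r)) ∧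
        Tendsto (fun s : ℕ => sol k l v (r + g + 2 * g * s)) atTop (𝓝 (2 / φ r))) ∧
      (v ∈ basin k l ↔ ∀ r, φ r = √2)) ∧
    ∃! c : Fin g → ℝ, (∀ r, 0 < c r) ∧ scale g c v ∈ basin k l := by
  have hg0 : 0 < g := Nat.pos_of_ne_zero (NeZero.ne g)
  obtain ⟨hpo, hqo⟩ := odd_parts (Nat.succ_pos k) (Nat.succ_pos l) hval
  have hl := (isSol hv).limits (Nat.succ_pos k) (Nat.succ_pos l) hpo hqo
  simp only [Nat.succ_eq_add_one] at hpo hqo hl
  rw [← hg] at hpo hqo hl
  choose φ hφ0 hφ using hl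
  constructor
  · refine ⟨fun r => φ r, fun r => hφ0 r, fun r => ⟨?_, ?_⟩, ?_⟩
    · have h1 : Tendsto (fun s : ℕ => 2 * s) atTop atTop :=
        tendsto_atTop_mono (fun s => by show s ≤ 2 * s; omega) tendsto_id
      have h2 := (hφ r).comp h1
      refine h2.congr fun s => ?_
      have e : (r : ℕ) + 2 * g * s = r + g * (2 * s) := by ring
      rw [Function.comp_apply, zz, if_pos (even_two_mul s), e]
    · have h1 : Tendsto (fun s : ℕ => 2 * s + 1) atTop atTop :=
        tendsto_atTop_mono (fun s => by show s ≤ 2 * s + 1; omega) tendsto_id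
      have h2 : Tendsto (fun s : ℕ => 2 / zz g (sol k l v) r (2 * s + 1)) atTop
          (𝓝 (2 / φ r)) :=
        (tendsto_const_nhds (x := (2 : ℝ))).div ((hφ r).comp h1) (hφ0 r).ne'
      refine h2.congr fun s => ?_
      have hne : ¬ Even (2 * s + 1) := by
        rw [Nat.not_even_iff_odd]
        exact odd_two_mul_add_one s
      have e : (r : ℕ) + g + 2 * g * s = r + g * (2 * s + 1) := by ring
      rw [zz, if_neg hne, div_div_cancel₀ two_ne_zero, e]
    · have hiff := tendsto_iff hg0 hφ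
      exact ⟨fun h r => hiff.1 h.2 r r.2, fun h => ⟨hv, hiff.2 fun r hr => h ⟨r, hr⟩⟩⟩
  · have h2 : (0 : ℝ) < √2 := by positivity
    refine ⟨fun r => √2 / φ r, ⟨fun r => div_pos h2 (hφ0 r), ?_⟩, ?_⟩
    · rw [scale_mem hg hpo hqo hv hφ (fun r => div_pos h2 (hφ0 r))]
      exact fun r => div_mul_cancel₀ _ (hφ0 r).ne'
    · rintro c ⟨hc, hmem⟩
      rw [scale_mem hg hpo hqo hv hφ hc] at hmem
      funext r
      rw [eq_div_iff (hφ0 r).ne']
      exact hmem r

/-- **The basin for equal valuations.** -/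
theorem result :
    ∀ k l : ℕ, padicValNat 2 (k + 1) = padicValNat 2 (l + 1) →
      ∀ (g : ℕ) [NeZero g], g = (k + 1).gcd (l + 1) →
        ∀ v : Fin (max k l + 1) → ℝ, (∀ i, 0 < v i) →
          (∃ φ : Fin g → ℝ, (∀ r, 0 < φ r) ∧
            (∀ r : Fin g,
              Tendsto (fun s : ℕ => sol k l v (r + 2 * g * s)) atTop (𝓝 (φ r)) ∧
              Tendsto (fun s : ℕ => sol k l v (r + g + 2 * g * s)) atTop (𝓝 (2 / φ r))) ∧
            (v ∈ basin k l ↔ ∀ r, φ r = √2)) ∧
          ∃! c : Fin g → ℝ, (∀ r, 0 < c r) ∧ scale g c v ∈ basin k l :=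
  fun _ _ hval g _ hg v hv => equal_case hval g hg v hv

end Pool.Agent.Results.MP_247194_an.BasinStructure
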