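import Mathlib
import Pool.Agent.N420.BS.Main

set_option autoImplicit false

/-!
# `MP_247194_an`: for which `(k, l)` is the basin of `√2` everything?

For `x (n + 1) = 1 / x (n - k) + 1 / x (n - l)` with positive initial values the basin of the
equilibrium `√2` is the whole positive orthant if and only if the exponents of the prime `2` in
`k + 1` and `l + 1` are different.

Proof of convergence: if all values from `p` on are in `[√2 / R, √2 R]` and `x n ≥ √2 (R - δ)`, then
both predecessors are at most `√2 / (R - 2 δ)`, and similarly with the roles reversed.  Going back
`(l + 1) / g` steps of length `k + 1` or `(k + 1) / g` steps of length `l + 1` one arrives at the same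
index with opposite signs, so `R - 1` shrinks by a fixed factor.  If the exponents are equal then there are
solutions with `x (n + g) = 2 / x n`, `g = gcd (k + 1) (l + 1)`.
-/

namespace Pool.Agent.Results.MP_247194_an.GlobalAttractivity

open Pool.Agent.N420.BS

/-- The basin of `√2` is the positive orthant if and only if the `2`-adic valuations of `k + 1` and
`l + 1` are different. -/
theorem result (k l : ℕ) :
    basin k l = {v | ∀ i, 0 < v i} ↔ padicValNat 2 (k + 1) ≠ padicValNat 2 (l + 1) :=
  criterion k l

end Pool.Agent.Results.MP_247194_an.GlobalAttractivity
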