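import Pool.Agent.N551.ZF.Main

/-!
# MP_247194_an: the basin of `√2` has no description by polynomial conditions

Let `k < l` with the same exponent of `2` in `k + 1` and `l + 1`. The basin `B_{k,l}` of `√2` is
Zariski dense: no nonzero polynomial in the initial values vanishes on it. It is not semialgebraic.
`basin k l` (`Pool.Agent.N420.BS.Defs`) is the set of the positive initial vectors whose solution of
`x_{n+1} = 1 / x_{n-k} + 1 / x_{n-l}` tends to `√2`.
-/

set_option autoImplicit false

namespace Pool.Agent.Results.MP_247194_an.ZariskiDense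

open Pool.Agent.N420.BS (basin)

/-- Semialgebraic sets: finite unions of sets which are given by finitely many polynomial equations
and finitely many strict polynomial inequalities. -/
def Semialgebraic {N : ℕ} (A : Set (Fin N → ℝ)) : Prop :=
  ∃ (m : ℕ) (E Q : Fin m → Finset (MvPolynomial (Fin N) ℝ)),
    A = {v | ∃ i, (∀ f ∈ E i, MvPolynomial.eval v f = 0) ∧ ∀ f ∈ Q i, 0 < MvPolynomial.eval v f}

/-- **If `k < l` and the exponents of `2` in `k + 1` and `l + 1` are equal, then no nonzero
polynomial vanishes on the basin of `√2`, and the basin is not semialgebraic.** -/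
theorem result (k l : ℕ) (hkl : k < l) (hv : padicValNat 2 (k + 1) = padicValNat 2 (l + 1)) :
    (∀ P : MvPolynomial (Fin (max k l + 1)) ℝ,
      (∀ v ∈ basin k l, MvPolynomial.eval v P = 0) → P = 0) ∧
    ¬ Semialgebraic (basin k l) :=
  N551.ZF.all k l hkl hv

end Pool.Agent.Results.MP_247194_an.ZariskiDense
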